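import Pool.Agent.W558.WD.Stms
import Pool.Agent.W558.S.Base1

/-! WILD-GWF (owner helper558): no infinite sequences of infinitely near bad points. -/

set_option autoImplicit false
set_option linter.unusedVariables false
set_option linter.unusedSectionVars false

universe u

open Polynomial

namespace Pool.Agent.W216.WD.Gwf

open Pool.Agent.W558

section

variable {k E : Type u} [Field k] [Field E] [Algebra k E]

/-- A bad point on one component of the boundary. -/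
structure NN (l : Subalgebra k E × Set E) (f x y : E) (m : ℤ) (c : ℕ) : Prop where
  par : Par l.1 x y
  b : l.2 = uo l.1 x
  dat : Dat l.1 x y f m c
  c1 : 1 ≤ c

/-- A bad point on two components of the boundary. -/
structure CC (l : Subalgebra k E × Set E) (f x y : E) (m n : ℤ) (c d : ℕ) : Prop where
  par : Par l.1 x y
  b : l.2 = uo l.1 x ∪ uo l.1 y
  dat : Dat2 l.1 x y f m n c d
  c1 : 1 ≤ c
  d1 : 1 ≤ d

lemma mem_uo_self (O : Subalgebra k E) (x : E) : x ∈ uo O x :=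
  ⟨1, O.one_mem, one_ne_zero, by rw [inv_one]; exact O.one_mem, by rw [one_mul]⟩

lemma clos_uo {O : Subalgebra k E} {x z : E} (h : z ∈ Submonoid.closure (uo O x)) :
    ∃ w ∈ O, w ≠ 0 ∧ w⁻¹ ∈ O ∧ ∃ N : ℕ, z = w * x ^ N := by
  induction h using Submonoid.closure_induction with
  | mem z hz =>
    obtain ⟨w, h1, h2, h3, h4⟩ := hz
    exact ⟨w, h1, h2, h3, 1, by rw [h4, pow_one]⟩
  | one => exact ⟨1, O.one_mem, one_ne_zero, by rw [inv_one]; exact O.one_mem, 0, by simp⟩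
  | mul a b _ _ ha hb =>
    obtain ⟨w, h1, h2, h3, N, h4⟩ := ha
    obtain ⟨w', h1', h2', h3', N', h4'⟩ := hb
    exact ⟨w * w', O.mul_mem h1 h1', mul_ne_zero h2 h2', by rw [mul_inv]; exact O.mul_mem h3 h3',
      N + N', by rw [h4, h4', pow_add]; ring⟩

lemma clos_uo2 {O : Subalgebra k E} {x y z : E}
    (h : z ∈ Submonoid.closure (uo O x ∪ uo O y)) :
    ∃ w ∈ O, w ≠ 0 ∧ w⁻¹ ∈ O ∧ ∃ N N' : ℕ, z = w * (x ^ N * y ^ N') := by
  induction h using Submonoid.closure_induction with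
  | mem z hz =>
    rcases hz with ⟨w, h1, h2, h3, h4⟩ | ⟨w, h1, h2, h3, h4⟩
    · exact ⟨w, h1, h2, h3, 1, 0, by rw [h4, pow_one, pow_zero, mul_one]⟩
    · exact ⟨w, h1, h2, h3, 0, 1, by rw [h4, pow_one, pow_zero, one_mul]⟩
  | one => exact ⟨1, O.one_mem, one_ne_zero, by rw [inv_one]; exact O.one_mem, 0, 0, by simp⟩
  | mul a b _ _ ha hb =>
    obtain ⟨w, h1, h2, h3, N, M, h4⟩ := ha
    obtain ⟨w', h1', h2', h3', N', M', h4'⟩ := hb
    exact ⟨w * w', O.mul_mem h1 h1', mul_ne_zero h2 h2', by rw [mul_inv]; exact O.mul_mem h3 h3',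
      N + N', M + M', by rw [h4, h4', pow_add, pow_add]; ring⟩

lemma po_N {O : Subalgebra k E} {b : Set E} {f x : E} (h : Po O b f) (hb : b = uo O x) :
    ∃ N : ℕ, f * x ^ N ∈ O := by
  obtain ⟨z, hz, h1⟩ := h
  rw [hb] at hz
  obtain ⟨w, hw, hw0, hwi, N, rfl⟩ := clos_uo hz
  refine ⟨N, ?_⟩
  have h2 := O.mul_mem hwi h1
  have h3 : w⁻¹ * (f * (w * x ^ N)) = f * x ^ N := by
    field_simp
  rwa [h3] at h2

lemma po_C {O : Subalgebra k E} {b : Set E} {f x y : E} (hx : x ∈ O) (hy : y ∈ O)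
    (h : Po O b f) (hb : b = uo O x ∪ uo O y) :
    ∃ N : ℕ, f * (x * y) ^ N ∈ O := by
  obtain ⟨z, hz, h1⟩ := h
  rw [hb] at hz
  obtain ⟨w, hw, hw0, hwi, N, N', rfl⟩ := clos_uo2 hz
  refine ⟨N + N', ?_⟩
  have h2 := O.mul_mem (O.mul_mem hwi h1) (O.mul_mem (O.pow_mem hx N') (O.pow_mem hy N))
  have h3 : w⁻¹ * (f * (w * (x ^ N * y ^ N'))) * (x ^ N' * y ^ N) = f * (x * y) ^ (N + N') := by
    rw [mul_pow, pow_add, pow_add]
    field_simp
  rwa [h3] at h2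

variable [PerfectField k] (htr : Algebra.trdeg k E = 2) (hdat : WD_dat.{u}) (hinv : WD_inv.{u})
  (hbnd : WD_bnd.{u}) (hf1 : WD_f1.{u}) (hf2 : WD_f2.{u}) (hf3 : WD_f3.{u}) (hf4 : WD_f4.{u})
  (hlim : WD_lim.{u}) {f : E} (hf : ∃ D : Derivation k E E, D f ≠ 0)

include htr hdat hinv hf in
lemma exists_NN {l : Subalgebra k E × Set E} {x y : E} (hP : Pt2 l.1) (hpar : Par l.1 x y)
    (hb : l.2 = uo l.1 x) (hPo : Po l.1 l.2 f) (hG : ¬ Gd l.1 l.2 f) :
    ∃ m c, NN l f x y m c := by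
  obtain ⟨m, c, h1⟩ := (hdat k E htr l.1 x y f hP hpar hf).1 (po_N hPo hb)
  refine ⟨m, c, hpar, hb, h1, ?_⟩
  by_contra hc
  have hc0 : c = 0 := by omega
  subst hc0
  apply hG
  rw [hb]
  exact (hinv k E htr l.1 x y f hP hpar).2.2.2.2.2.1 m h1

include htr hdat hinv hf in
lemma exists_CC {l : Subalgebra k E × Set E} {x y : E} (hP : Pt2 l.1) (hpar : Par l.1 x y)
    (hb : l.2 = uo l.1 x ∪ uo l.1 y) (hPo : Po l.1 l.2 f) (hG : ¬ Gd l.1 l.2 f) :
    ∃ m n c d, CC l f x y m n c d := by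
  obtain ⟨m, n, c, d, h1⟩ := (hdat k E htr l.1 x y f hP hpar hf).2
    (po_C hpar.pu.mem hpar.pv.mem hPo hb)
  have h2 := hinv k E htr l.1 x y f hP hpar
  refine ⟨m, n, c, d, hpar, hb, h1, ?_, ?_⟩
  · by_contra hc
    have hc0 : c = 0 := by omega
    subst hc0
    apply hG
    rw [hb]
    exact h2.2.2.2.2.2.2.1 m n d h1
  · by_contra hc
    have hc0 : d = 0 := by omega
    subst hc0
    apply hG
    rw [hb]
    exact h2.2.2.2.2.2.2.2 m n c h1

include htr hinv in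
lemma CC.swap {l : Subalgebra k E × Set E} {x y : E} {m n : ℤ} {c d : ℕ} (hP : Pt2 l.1)
    (h : CC l f x y m n c d) : CC l f y x n m d c where
  par := h.par.symm
  b := by rw [h.b, Set.union_comm]
  dat := (hinv k E htr l.1 x y f hP h.par).2.2.2.2.1 m n c d h.dat
  c1 := h.d1
  d1 := h.c1

/-- the ideal is the maximal ideal -/
def RM (O : Subalgebra k E) (f x y : E) (m n : ℤ) : Prop :=
  ∀ z, NU O z → ∃ θ ∈ Th O (uo O x ∪ uo O y), θ f = z * (x ^ m * y ^ n)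

include htr hinv hbnd hf4 in
lemma stepP {l l' : Subalgebra k E × Set E} (hr : rG f l' l) {x y : E} {m n : ℤ} {c d : ℕ}
    (h : CC l f x y m n c d) (hRM : RM l.1 f x y m n) : False := by
  obtain ⟨⟨hP, hP', -, -, -, -, hG, hG', e, hQ, hb'⟩, -, hPo'⟩ := hr
  rw [h.b] at hb'
  rcases (hbnd k E htr l.1 l'.1 e hP hP' hQ).2.2.2 x y h.par with
    ⟨h1, h2, h3⟩ | ⟨h1, h2, h3⟩ | ⟨h1, h2, h3⟩
  · apply hG'
    rw [hb', h3]
    exact (hf4 k E htr l.1 l'.1 x y f m n c d hP hP' h.par h1 h.dat h.c1 h.d1 hRM).1 h2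
  · apply hG'
    rw [hb', h3]
    exact (hf4 k E htr l.1 l'.1 x y f m n c d hP hP' h.par h1 h.dat h.c1 h.d1 hRM).2
  · apply hG'
    rw [hb', h3]
    have hs := h.swap htr hinv hP
    refine (hf4 k E htr l.1 l'.1 y x f n m d c hP hP' hs.par h1 hs.dat hs.c1 hs.d1 ?_).2
    intro z hz
    obtain ⟨θ, hθ, h4⟩ := hRM z hz
    exact ⟨θ, by rw [Set.union_comm]; exact hθ, by rw [h4, mul_comm (x ^ m)]⟩

include htr hdat hinv hf hbnd hf3 in
lemma stepC {l l' : Subalgebra k E × Set E} (hr : rG f l' l) {x y : E} {m n : ℤ} {c d : ℕ}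
    (h : CC l f x y m n c d) : (∃ x' y' m' c', NN l' f x' y' m' c' ∧ c' ≤ min c d) ∨
    (∃ x' y' m' n' c' d', CC l' f x' y' m' n' c' d' ∧ min c' d' ≤ min c d ∧
      c' + d' < c + d) := by
  obtain ⟨⟨hP, hP', -, -, -, -, hG, hG', e, hQ, hb'⟩, -, hPo'⟩ := hr
  have hs := h.swap htr hinv hP
  have hb0 := hb'
  rw [h.b] at hb'
  rcases (hbnd k E htr l.1 l'.1 e hP hP' hQ).2.2.2 x y h.par with
    ⟨h1, h2, h3⟩ | ⟨h1, h2, h3⟩ | ⟨h1, h2, h3⟩
  · left
    obtain ⟨y', hy'⟩ := (hbnd k E htr l.1 l'.1 x hP hP' h1).1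
    obtain ⟨m', c', hN⟩ := exists_NN htr hdat hinv hf hP' hy' (hb'.trans h3) hPo' hG'
    exact ⟨x, y', m', c', hN, (hf3 k E htr l.1 l'.1 x y f m n c d hP hP' h.par h1 h.dat h.c1
      h.d1).1 y' m' c' h2 hy' hN.dat⟩
  · right
    obtain ⟨m', n', c', d', hC⟩ := exists_CC htr hdat hinv hf hP' h2 (hb'.trans h3) hPo' hG'
    obtain ⟨h4, h5⟩ := (hf3 k E htr l.1 l'.1 x y f m n c d hP hP' h.par h1 h.dat h.c1
      h.d1).2 m' n' c' d' h2 hC.dat
    have := h.c1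
    exact ⟨_, _, m', n', c', d', hC, (min_le_left _ _).trans h4, by omega⟩
  · right
    obtain ⟨m', n', c', d', hC⟩ := exists_CC htr hdat hinv hf hP' h2 (hb'.trans h3) hPo' hG'
    obtain ⟨h4, h5⟩ := (hf3 k E htr l.1 l'.1 y x f n m d c hP hP' hs.par h1 hs.dat hs.c1
      hs.d1).2 m' n' c' d' h2 hC.dat
    have := h.d1
    refine ⟨_, _, m', n', c', d', hC, ?_, by omega⟩
    rw [min_comm c d]
    exact (min_le_left _ _).trans h4

include htr hdat hinv hf hbnd hf1 hf2 hf4 in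
lemma stepN {l l' l'' : Subalgebra k E × Set E} (hr : rG f l' l) (hr' : rG f l'' l') {x y : E}
    {m : ℤ} {c : ℕ} (h : NN l f x y m c) :
    (∃ y' m' c', NN l' f x y' m' c' ∧ Quad l.1 x l'.1 ∧ c' ≤ c ∧ m + 2 ≤ m') ∨
    (∃ x' y' m' n' c' d', CC l' f x' y' m' n' c' d' ∧ min c' d' < c) := by
  obtain ⟨⟨hP, hP', -, -, -, -, hG, hG', e, hQ, hb'⟩, -, hPo'⟩ := hr
  rw [h.b] at hb'
  rcases (hbnd k E htr l.1 l'.1 e hP hP' hQ).2.2.1 x y h.par with
    ⟨h1, h3⟩ | ⟨y', h1, h2, h3, h4⟩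
  · left
    obtain ⟨y', hy'⟩ := (hbnd k E htr l.1 l'.1 x hP hP' h1).1
    obtain ⟨m', c', hN⟩ := exists_NN htr hdat hinv hf hP' hy' (hb'.trans h3) hPo' hG'
    obtain ⟨h5, h6⟩ := hf1 k E htr l.1 l'.1 x y y' f m m' c c' hP hP' h.par h1 hy' h.dat h.c1
      hN.dat
    exact ⟨y', m', c', hN, h1, h5, h6 hN.c1⟩
  · right
    obtain ⟨m', n', c', d', hC⟩ := exists_CC htr hdat hinv hf hP' h3 (hb'.trans h4) hPo' hG'
    have hD := (hinv k E htr l.1 x y f hP h.par).2.2.1 x y' m c (mem_uo_self _ _) h1 h.dat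
    obtain ⟨h5, h6, h7⟩ := hf2 k E htr l.1 l'.1 x y' f m m' n' c c' d' hP hP' h1 h2 h3 hD h.c1
      hC.dat
    refine ⟨_, _, m', n', c', d', hC, ?_⟩
    by_cases hc : 2 ≤ c
    · exact h6 hc
    · exfalso
      have hc1 : c = 1 := by
        have := h.c1
        omega
      exact stepP htr hinv hbnd hf4 hr' hC (h7 hc1 hC.c1 hC.d1)

include htr hdat hinv hf hbnd hf1 hf2 hf3 hf4 hlim in
theorem no_seq (l : ℕ → Subalgebra k E × Set E) (hr : ∀ n, rG f (l (n + 1)) (l n)) :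
    ∀ φ : ℕ, (∀ n x y m c, NN (l n) f x y m c → c ≤ φ → False) ∧
      (∀ s n x y m m2 c d, CC (l n) f x y m m2 c d → min c d ≤ φ → c + d = s → False) := by
  intro φ
  induction φ using Nat.strong_induction_on with
  | _ φ ih =>
  have hN : ∀ n x y m c, NN (l n) f x y m c → c ≤ φ → False := by
    intro n x y m c h hc
    -- the sequence
    let S : ℕ → Type u := fun j => {q : E × ℤ × ℕ // NN (l (n + j)) f x q.1 q.2.1 q.2.2 ∧ q.2.2 ≤ φ}
    have hstep : ∀ j (q : S j), ∃ q' : S (j + 1), Quad (l (n + j)).1 x (l (n + (j + 1))).1 ∧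
        q.1.2.1 + 2 ≤ q'.1.2.1 := by
      intro j q
      rcases stepN htr hdat hinv hbnd hf1 hf2 hf4 hf (hr (n + j)) (hr (n + j + 1)) q.2.1 with
        ⟨y', m', c', h1, h2, h3, h4⟩ | ⟨x', y', m', n', c', d', h1, h2⟩
      · exact ⟨⟨(y', m', c'), h1, h3.trans q.2.2⟩, h2, h4⟩
      · exfalso
        exact (ih (min c' d') (lt_of_lt_of_le h2 q.2.2)).2 _ _ _ _ _ _ _ _ h1 le_rfl rfl
    choose nx hnx1 hnx2 using hstep
    let g : (j : ℕ) → S j := fun j => Nat.rec (⟨(y, m, c), h, hc⟩ : S 0) (fun j q => nx j q) j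
    have hg : ∀ j, g (j + 1) = nx j (g j) := fun j => rfl
    refine hlim k E htr (fun j => (l (n + j)).1) x (fun j => (g j).1.1) f
      (fun j => (g j).1.2.1) (fun j => (g j).1.2.2) ?_ ?_ ?_ ?_ ?_ ?_
    · intro j
      exact (hr (n + j)).1.1
    · intro j
      exact (g j).2.1.par
    · intro j
      exact hnx1 j (g j)
    · have h1 := (hr n).1.2.2.2.2.1
      rw [h.b] at h1
      exact h1
    · intro j
      exact (g j).2.1.dat
    · intro j
      have := hnx2 j (g j)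
      rw [← hg] at this
      exact this
  refine ⟨hN, ?_⟩
  intro s
  induction s using Nat.strong_induction_on with
  | _ s ihs =>
  intro n x y m m2 c d h hc hs
  rcases stepC htr hdat hinv hbnd hf3 hf (hr n) h with
    ⟨x', y', m', c', h1, h2⟩ | ⟨x', y', m', n', c', d', h1, h2, h3⟩
  · exact hN _ _ _ _ _ h1 (h2.trans hc)
  · exact ihs (c' + d') (by omega) _ _ _ _ _ _ _ h1 (h2.trans hc) rfl

end

theorem main (hdat : WD_dat.{u}) (hinv : WD_inv.{u}) (hbnd : WD_bnd.{u}) (hf1 : WD_f1.{u})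
    (hf2 : WD_f2.{u}) (hf3 : WD_f3.{u}) (hf4 : WD_f4.{u}) (hlim : WD_lim.{u}) : WD_gwf.{u} := by
  intro k E _ _ _ _ htr f hf
  rw [wellFounded_iff_isEmpty_descending_chain]
  constructor
  rintro ⟨l, hr⟩
  have h0 := hr 0
  have h1 := hr 1
  obtain ⟨⟨hP, hP', hT, hT', -, -, hG, hG', e, hQ, hb'⟩, -, hPo'⟩ := h0
  have hne : (l 1).2 ≠ ∅ := by
    intro h2
    have h3 : e ∈ (l 1).2 := by
      rw [hb']
      exact Or.inl (mem_uo_self _ _)
    rw [h2] at h3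
    exact h3
  obtain ⟨x, y, hpar, h2 | h2 | h2⟩ := hT'
  · exact hne h2
  · obtain ⟨m, c, hN⟩ := exists_NN htr hdat hinv hf hP' hpar h2 hPo' hG'
    exact (no_seq htr hdat hinv hbnd hf1 hf2 hf3 hf4 hlim hf l hr c).1 1 x y m c hN le_rfl
  · obtain ⟨m, n, c, d, hC⟩ := exists_CC htr hdat hinv hf hP' hpar h2 hPo' hG'
    exact (no_seq htr hdat hinv hbnd hf1 hf2 hf3 hf4 hlim hf l hr (min c d)).2 _ 1 x y m n c d hC
      le_rfl rfl

end Pool.Agent.W216.WD.Gwf
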