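import Pool.Agent.W558.WD.Stms
import Pool.Agent.W558.Princ

/-! WILD-PPR (owner helper558): termination. -/

set_option autoImplicit false
set_option linter.unusedVariables false
set_option linter.unusedSectionVars false

universe u

open Polynomial

namespace Pool.Agent.W216.WD.Ppr

open Pool.Agent.W558

section wt

variable {k N : Type u} [Field k] [Field N] [Algebra k N] {p : ℕ} {T T' I : Type}

/-- The exponents, with the additional component `y`. -/
def cc (p : ℕ) {I : Type} (c : I → ℤ) (o : Option I) : ℤ := o.elim (-(p : ℤ)) c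

/-- The weight of a pair. -/
def wp (p : ℕ) {I : Type} (c : I → ℤ) (q : I × Option I) : ℕ :=
  (c q.1).toNat * (-(cc p c q.2)).toNat

/-- The components are disjoint. -/
def SS (M : LM (⊥ : Subalgebra k N) ⊤ T I) (y : T → N) (i : I) (o : Option I) : Prop :=
  o.elim (SepY M y i) (fun j => Sep M i j)

/-- The bad pairs. -/
def BadP (p : ℕ) (M : LM (⊥ : Subalgebra k N) ⊤ T I) (y : T → N) (c : I → ℤ)
    (q : I × Option I) : Prop := 0 < wp p c q ∧ ¬ SS M y q.1 q.2

lemma wp_pos {c : I → ℤ} {q : I × Option I} : 0 < wp p c q ↔ 0 < c q.1 ∧ cc p c q.2 < 0 := by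
  unfold wp
  rw [CanonicallyOrderedAdd.mul_pos]
  omega

lemma wp_int {c : I → ℤ} {q : I × Option I} (h : 0 < wp p c q) :
    (wp p c q : ℤ) = c q.1 * (- cc p c q.2) := by
  obtain ⟨h1, h2⟩ := wp_pos.1 h
  unfold wp
  rw [Nat.cast_mul, Int.toNat_of_nonneg h1.le, Int.toNat_of_nonneg (by omega)]

lemma cc_map {c : I → ℤ} {c' : Option I → ℤ} (hc : ∀ l, c' (some l) = c l) (o : Option I) :
    cc p c' (o.map some) = cc p c o := by
  cases o with
  | none => rfl
  | some l => exact hc l

lemma key [Fintype I] (M : LM (⊥ : Subalgebra k N) ⊤ T I) (M' : LM (⊥ : Subalgebra k N) ⊤ T' (Option I))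
    (y : T → N) (y' : T' → N) (c : I → ℤ) (c' : Option I → ℤ) (i : I) (o0 : Option I)
    (hc' : c' none = c i + cc p c o0) (hc : ∀ l, c' (some l) = c l)
    (H1 : ∀ l o, SS M y l o → SS M' y' (some l) (o.map some))
    (H2 : SS M' y' (some i) (o0.map some))
    (H3 : ∀ o, SS M y i o → SS M' y' none (o.map some))
    (H4 : ∀ l, SS M y l o0 → Sep M' none (some l))
    (W : ℕ) (hW : ∀ q, BadP p M y c q → wp p c q ≤ W) (hbad : BadP p M y c (i, o0)) :
    ∀ q, BadP p M' y' c' q → wp p c' q < W ∨ ∃ l o, q = (some l, o.map some) ∧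
      BadP p M y c (l, o) ∧ wp p c (l, o) = wp p c' q ∧ (l, o) ≠ (i, o0) := by
  obtain ⟨hi, hj⟩ := wp_pos.1 hbad.1
  simp only at hi hj
  rintro ⟨a, b⟩ ⟨h1, h2⟩
  have hb : b = some none ∨ ∃ o : Option I, b = o.map some := by
    rcases b with _ | _ | l
    · exact Or.inr ⟨none, rfl⟩
    · exact Or.inl rfl
    · exact Or.inr ⟨some l, rfl⟩
  have h9 := wp_int h1
  obtain ⟨h3, h4⟩ := wp_pos.1 h1
  simp only at h2 h3 h4 h9
  rcases hb with rfl | ⟨o, rfl⟩
  · rcases a with _ | l
    · exfalso
      have : cc p c' (some none) = c' none := rfl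
      omega
    · left
      have h5 : ¬ SS M y l o0 := fun h => h2 (H4 l h).symm
      rw [hc] at h3 h9
      have e1 : cc p c' (some none) = c i + cc p c o0 := hc'
      rw [e1] at h4 h9
      have h6 : 0 < wp p c (l, o0) := wp_pos.2 ⟨h3, hj⟩
      have h7 := hW _ ⟨h6, h5⟩
      have h8 := wp_int h6
      simp only at h8
      have : (wp p c' (some l, some none) : ℤ) < wp p c (l, o0) := by
        rw [h8, h9]
        nlinarith
      omega
  · rw [cc_map hc] at h4 h9
    rcases a with _ | l
    · left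
      have h5 : ¬ SS M y i o := fun h => h2 (H3 o h)
      rw [hc'] at h3 h9
      have h6 : 0 < wp p c (i, o) := wp_pos.2 ⟨hi, h4⟩
      have h7 := hW _ ⟨h6, h5⟩
      have h8 := wp_int h6
      simp only at h8
      have : (wp p c' (none, o.map some) : ℤ) < wp p c (i, o) := by
        rw [h8, h9]
        nlinarith
      omega
    · right
      rw [hc] at h3 h9
      have h6 : 0 < wp p c (l, o) := wp_pos.2 ⟨h3, h4⟩
      have h8 := wp_int h6
      simp only at h8
      refine ⟨l, o, rfl, ⟨h6, fun h => h2 (H1 l o h)⟩, ?_, ?_⟩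
      · have : (wp p c (l, o) : ℤ) = wp p c' (some l, o.map some) := by rw [h8, h9]
        exact_mod_cast this
      · intro h
        obtain ⟨rfl, rfl⟩ := Prod.mk.inj h
        exact h2 H2

end wt

section fin

variable {k N : Type u} [Field k] [Field N] [Algebra k N] {p : ℕ} {T I G : Type}

lemma inv_prod_mem {Q : Subalgebra k N} {I : Type} (s : Finset I) (x : I → N)
    (h : ∀ i, (x i)⁻¹ ∈ Q) : (∏ i ∈ s, x i)⁻¹ ∈ Q := by
  rw [← Finset.prod_inv_distrib]
  exact Q.prod_mem fun i _ => h i

lemma ext_loc' {A B : Subalgebra k N} {h : N} (hB : B = adj A h⁻¹) (hle : A ≤ B) (hh : h ∈ A)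
    (h0 : h ≠ 0) {κ : Type u} [Field κ] [Algebra k κ] (φ : B →ₐ[k] κ)
    (D : TV (φ.comp (Subalgebra.inclusion hle))) :
    ∃ E : TV φ, ∀ (a : N) (ha : a ∈ A) (ha' : a ∈ B), E.D ⟨a, ha'⟩ = D.D ⟨a, ha⟩ := by
  subst hB
  exact TV.ext_loc hh h0 φ _ (fun a => rfl) D

/-- No bad pairs. -/
theorem fin [Finite T] [Fintype I] (M : LM (⊥ : Subalgebra k N) ⊤ T I) (F : N)
    (Q : Subalgebra k N) (y h : T → N) (c μ : I → ℤ) (g : G → N) (Γ : G → I → ℤ)
    (hp : 0 < p) (hPS : PS p M F Q y h c μ) (hL : Lq M Q) (hF : Fn M g Γ)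
    (hno : ∀ q, ¬ BadP p M y c q) :
    ∃ (T' I' : Type) (_ : Finite T') (_ : Fintype I') (M' : LM (⊥ : Subalgebra k N) ⊤ T' I')
    (y' h' : T' → N) (c' μ' : I' → ℤ) (Γ' : G → I' → ℤ),
    PS p M' F Q y' h' c' μ' ∧ Lq M' Q ∧ Fn M' g Γ' ∧ Fin2 M' y' c' := by
  classical
  let s : Bool → Finset I := fun e =>
    if e then Finset.univ.filter (fun l => 0 < c l) else
      Finset.univ.filter (fun l => c l < 0)
  let h' : T → Bool → N := fun t e => (if e then 1 else y t) * ∏ l ∈ s e, M.x t l
  have hmem : ∀ t e, h' t e ∈ M.A t := by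
    intro t e
    refine (M.A t).mul_mem ?_ ((M.A t).prod_mem fun l _ => M.xA t l)
    split_ifs
    · exact (M.A t).one_mem
    · exact hPS.yA t
  have hne : ∀ t e, h' t e ≠ 0 := by
    intro t e
    refine mul_ne_zero ?_ (Finset.prod_ne_zero_iff.2 fun l _ => M.x0 t l)
    split_ifs
    · exact one_ne_zero
    · exact hPS.y0 t
  have hcop : ∀ t, ∃ α ∈ M.A t, ∃ β ∈ M.A t, α * h' t true + β * h' t false = 1 := by
    intro t
    have key : IsCoprime (∏ l ∈ s true, (⟨M.x t l, M.xA t l⟩ : M.A t))
        ((⟨y t, hPS.yA t⟩ : M.A t) * ∏ l ∈ s false, (⟨M.x t l, M.xA t l⟩ : M.A t)) := by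
      refine IsCoprime.prod_left fun l hl => IsCoprime.mul_right ?_
        (IsCoprime.prod_right fun m hm => ?_)
      · have hl' : 0 < c l := by simpa [s] using hl
        have h1 : SepY M y l := by
          by_contra h2
          refine hno (l, none) ⟨wp_pos.2 ⟨hl', ?_⟩, h2⟩
          change -(p : ℤ) < 0
          omega
        obtain ⟨α, hα, β, hβ, h3⟩ := h1 t
        exact ⟨⟨α, hα⟩, ⟨β, hβ⟩, Subtype.ext h3⟩
      · have hl' : 0 < c l := by simpa [s] using hl
        have hm' : c m < 0 := by simpa [s] using hm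
        have h1 : Sep M l m := by
          by_contra h2
          exact hno (l, some m) ⟨wp_pos.2 ⟨hl', hm'⟩, h2⟩
        obtain ⟨α, hα, β, hβ, h3⟩ := h1 t
        exact ⟨⟨α, hα⟩, ⟨β, hβ⟩, Subtype.ext h3⟩
    obtain ⟨α, β, hαβ⟩ := key
    refine ⟨α, α.2, β, β.2, ?_⟩
    have := congrArg (Subtype.val : M.A t → N) hαβ
    simpa [h'] using this
  obtain ⟨M', hA, hx, hH⟩ := exists_refine M h' hmem hne (by
    intro t V hV
    obtain ⟨α, hα, β, hβ, h1⟩ := hcop t
    have hV1 : h' t true ∈ V := hV _ (hmem _ _)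
    have hV2 : h' t false ∈ V := hV _ (hmem _ _)
    by_contra hcon
    push Not at hcon
    have h2 : ∀ e, V.valuation (h' t e) < 1 := by
      intro e
      have h3 : (h' t e)⁻¹ ∉ V := hcon e
      rw [← V.valuation_le_one_iff, map_inv₀, not_le] at h3
      have h4 : V.valuation (h' t e) ≠ 0 := by
        rw [ne_eq, map_eq_zero]; exact hne t e
      exact (one_lt_inv₀ (zero_lt_iff.2 h4)).1 h3
    have h5 : V.valuation (α * h' t true + β * h' t false) < 1 := by
      refine Valuation.map_add_lt _ ?_ ?_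
      · rw [map_mul]
        exact (mul_le_of_le_one_left' ((V.valuation_le_one_iff _).2 (hV _ hα))).trans_lt (h2 _)
      · rw [map_mul]
        exact (mul_le_of_le_one_left' ((V.valuation_le_one_iff _).2 (hV _ hβ))).trans_lt (h2 _)
    rw [h1, map_one] at h5
    exact lt_irrefl _ h5)
  have hle : ∀ q : T × Bool, M.A q.1 ≤ M'.A q := by
    intro q
    rw [hA]
    exact le_rA M h' q
  have hAq : ∀ q : T × Bool, M'.A q = adj (M.A q.1) (h' q.1 q.2)⁻¹ := by
    intro q
    rw [hA]
    rfl
  have hxq : ∀ (q : T × Bool), M'.x q = M.x q.1 := by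
    intro q
    rw [hx]
  have hinvQ : ∀ q : T × Bool, (h' q.1 q.2)⁻¹ ∈ Q := by
    intro q
    change ((if q.2 then 1 else y q.1) * ∏ l ∈ s q.2, M.x q.1 l)⁻¹ ∈ Q
    rw [mul_inv]
    refine Q.mul_mem ?_ (inv_prod_mem _ _ fun i => hPS.xQ q.1 i)
    split_ifs
    · rw [inv_one]; exact Q.one_mem
    · exact hPS.yQ q.1
  refine ⟨T × Bool, I, inferInstance, inferInstance, M', fun q => y q.1, fun q => h q.1, c, μ, Γ,
    ?_, ?_, ?_, ?_⟩
  · refine ⟨fun q => hle q (hPS.yA q.1), fun q => hPS.y0 q.1, fun q => hle q (hPS.hA q.1), ?_, ?_,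
      fun q => hPS.yQ q.1, ?_, ?_, ?_⟩
    · intro q
      rw [hAq]
      exact adj_le (hPS.AQ q.1) (hinvQ q)
    · intro q i
      rw [hxq]
      exact hPS.xQ q.1 i
    · intro q
      rw [hxq]
      exact hPS.eq q.1
    · intro q
      rw [hxq, hAq]
      refine (hPS.snc q.1).loc ?_ (hmem q.1 q.2) (hne q.1 q.2)
      rintro (_ | i)
      · exact hPS.yA q.1
      · exact M.xA q.1 i
    · intro q κ _ _ φ
      obtain ⟨v, hv⟩ := hPS.ln q.1 κ (φ.comp (Subalgebra.inclusion (hle q)))
      obtain ⟨D, hD⟩ := ext_loc' (hAq q) (hle q) (hmem q.1 q.2) (hne q.1 q.2) φ v.D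
      rw [hxq]
      refine ⟨⟨D, v.e, ?_⟩, ?_⟩
      · intro i hi
        have hi' : ox (y q.1) (M.x q.1) i ∈ M.A q.1 := by
          cases i with
          | none => exact hPS.yA q.1
          | some i => exact M.xA q.1 i
        rw [hD _ hi' hi]
        exact v.hx i hi'
      · intro h0
        apply hv
        rw [← h0]
        unfold om
        simp only
        rw [hD _ (hPS.hA q.1) (hle q (hPS.hA q.1))]
        rfl
  · intro q z hz
    obtain ⟨α, hα, β, hβ, h1⟩ := hL q.1 z hz
    exact ⟨α, hle q hα, β, hle q hβ, h1⟩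
  · intro a q
    obtain ⟨w, hw0, hw, hw', h1⟩ := hF a q.1
    refine ⟨w, hw0, hle q hw, hle q hw', ?_⟩
    rw [hxq]
    exact h1
  · rintro ⟨t, e⟩
    have hu : ∀ l ∈ s e, (M'.x (t, e) l)⁻¹ ∈ M'.A (t, e) := by
      intro l hl
      rw [hxq]
      have h1 : (M.x t l)⁻¹ = ((if e then 1 else y t) * ∏ m ∈ (s e).erase l, M.x t m) *
          (h' t e)⁻¹ := by
        have h2 : h' t e = (if e then 1 else y t) * (M.x t l * ∏ m ∈ (s e).erase l, M.x t m) := by
          rw [Finset.mul_prod_erase _ _ hl]
        rw [h2]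
        have h3 := M.x0 t l
        have h4 : ∏ m ∈ (s e).erase l, M.x t m ≠ 0 :=
          Finset.prod_ne_zero_iff.2 fun l _ => M.x0 t l
        have h5 : (if e then 1 else y t) ≠ 0 := by
          split_ifs
          · exact one_ne_zero
          · exact hPS.y0 t
        field_simp
      change (M.x t l)⁻¹ ∈ _
      rw [h1]
      refine (M'.A (t, e)).mul_mem (hle (t, e) ((M.A t).mul_mem ?_
        ((M.A t).prod_mem fun m _ => M.xA t m))) ?_
      · split_ifs
        · exact (M.A t).one_mem
        · exact hPS.yA t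
      · rw [hAq]
        exact self_mem_adj _ _
    cases e
    · right
      refine ⟨?_, ?_⟩
      · intro l
        by_cases hl : c l < 0
        · right
          exact hu l (by simpa [s] using hl)
        · left
          omega
      · have h1 : (y t)⁻¹ = (∏ m ∈ s false, M.x t m) * (h' t false)⁻¹ := by
          have h2 : h' t false = y t * (∏ m ∈ s false, M.x t m) := by
            simp [h']
          rw [h2]
          have h3 := hPS.y0 t
          have h4 : ∏ m ∈ s false, M.x t m ≠ 0 :=
            Finset.prod_ne_zero_iff.2 fun l _ => M.x0 t l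
          field_simp
        change (y t)⁻¹ ∈ _
        rw [h1]
        refine (M'.A (t, false)).mul_mem (hle (t, false) ((M.A t).prod_mem fun m _ => M.xA t m)) ?_
        rw [hAq]
        exact self_mem_adj _ _
    · left
      intro l
      by_cases hl : 0 < c l
      · right
        exact hu l (by simpa [s] using hl)
      · left
        omega

end fin

section main

variable {k N : Type u} [Field k] [PerfectField k] [Field N] [Algebra k N] {p : ℕ} [Fact p.Prime]
  [CharP k p] {G : Type}

theorem aux (hcp : WD_cp.{u}) (hpbl : WD_pbl.{u}) (htbl : WD_tbl.{u}) (F : N)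
    (Q : Subalgebra k N) (g : G → N) : ∀ (W n : ℕ) {T I : Type} [Finite T] [Fintype I]
    (M : LM (⊥ : Subalgebra k N) ⊤ T I) (y h : T → N) (c μ : I → ℤ) (Γ : G → I → ℤ),
    PS p M F Q y h c μ → Lq M Q → Fn M g Γ →
    (∀ q, BadP p M y c q → wp p c q ≤ W) →
    {q | BadP p M y c q ∧ wp p c q = W}.ncard ≤ n →
    ∃ (T' I' : Type) (_ : Finite T') (_ : Fintype I') (M' : LM (⊥ : Subalgebra k N) ⊤ T' I')
    (y' h' : T' → N) (c' μ' : I' → ℤ) (Γ' : G → I' → ℤ),
    PS p M' F Q y' h' c' μ' ∧ Lq M' Q ∧ Fn M' g Γ' ∧ Fin2 M' y' c' := by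
  classical
  have hp0 : 0 < p := (Fact.out : p.Prime).pos
  intro W
  induction W with
  | zero =>
    intro n T I _ _ M y h c μ Γ hPS hL hF hW hn
    refine fin M F Q y h c μ g Γ hp0 hPS hL hF ?_
    intro q hq
    have := hW q hq
    have := hq.1
    omega
  | succ W ihW =>
    intro n
    induction n with
    | zero =>
      intro T I _ _ M y h c μ Γ hPS hL hF hW hn
      refine ihW _ M y h c μ Γ hPS hL hF ?_ le_rfl
      intro q hq
      have h1 := hW q hq
      rcases h1.lt_or_eq with h2 | h2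
      · omega
      · exfalso
        have h3 : {q | BadP p M y c q ∧ wp p c q = W + 1} = ∅ := by
          rw [← Set.ncard_eq_zero (Set.toFinite _)]
          omega
        have h4 : q ∈ {q | BadP p M y c q ∧ wp p c q = W + 1} := ⟨hq, h2⟩
        rw [h3] at h4
        exact h4
    | succ n ihn =>
      intro T I _ _ M y h c μ Γ hPS hL hF hW hn
      by_cases hex : ∃ q, BadP p M y c q ∧ wp p c q = W + 1
      · obtain ⟨⟨i, o⟩, hb, hwt⟩ := hex
        obtain ⟨hi, ho⟩ := wp_pos.1 hb.1
        simp only at hi ho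
        -- the blowup
        have hblow : ∃ (M' : LM (⊥ : Subalgebra k N) ⊤ (T × Bool) (Option I))
            (y' h' : T × Bool → N) (c' : Option I → ℤ) (μ' : Option I → ℤ)
            (Γ' : G → Option I → ℤ),
            PS p M' F Q y' h' c' μ' ∧ Lq M' Q ∧ Fn M' g Γ' ∧
            c' none = c i + cc p c o ∧ (∀ l, c' (some l) = c l) ∧
            (∀ l o, SS M y l o → SS M' y' (some l) (o.map some)) ∧
            SS M' y' (some i) (o.map some) ∧
            (∀ o, SS M y i o → SS M' y' none (o.map some)) ∧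
            (∀ l, SS M y l o → Sep M' none (some l)) := by
          cases o with
          | none =>
            obtain ⟨M', y', h', μ', Γ', h1, h2, h3, h4, h5, h6, h7, h8⟩ :=
              hpbl p k N T I G M F Q y h c μ g Γ hPS hL hF i hi
                (hcp p k N T I M F Q y h c μ hPS i hi)
            refine ⟨M', y', h', _, μ', Γ', h1, h2, h3, ?_, fun l => rfl, ?_, h4, ?_, h8⟩
            · change c i - (p : ℤ) = c i + -(p : ℤ)
              ring
            · rintro l (_ | l') h9
              · exact h6 l h9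
              · exact h5 l l' h9
            · rintro (_ | l') h9
              · exact absurd h9 hb.2
              · exact h7 l' h9
          | some j =>
            have hij : i ≠ j := by
              rintro rfl
              change c i < 0 at ho
              omega
            obtain ⟨M', y', h', μ', Γ', h1, h2, h3, h4, h5, h6, h7, h8, h9⟩ :=
              htbl p k N T I G M F Q y h c μ g Γ hPS hL hF i j hij
            refine ⟨M', y', h', _, μ', Γ', h1, h2, h3, rfl, fun l => rfl, ?_, h4, ?_, ?_⟩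
            · rintro l (_ | l') h10
              · exact h8 l h10
              · exact h5 l l' h10
            · rintro (_ | l') h10
              · exact h9 h10
              · exact h6 l' h10
            · intro l h10
              exact h7 l h10.symm
        obtain ⟨M', y', h', c', μ', Γ', hPS', hL', hF', hc', hc, H1, H2, H3, H4⟩ := hblow
        have key := key M M' y y' c c' i o hc' hc H1 H2 H3 H4 (W + 1) hW hb
        refine ihn M' y' h' c' μ' Γ' hPS' hL' hF' ?_ ?_
        · intro q hq
          rcases key q hq with h1 | ⟨l, l', h1, h2, h3, h4⟩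
          · exact h1.le
          · rw [← h3]
            exact hW _ h2
        · have h5 : {q | BadP p M' y' c' q ∧ wp p c' q = W + 1} ⊆
              (fun q : I × Option I => (some q.1, q.2.map some)) ''
                ({q | BadP p M y c q ∧ wp p c q = W + 1} \ {(i, o)}) := by
            rintro q ⟨hq, hq'⟩
            rcases key q hq with h1 | ⟨l, l', h1, h2, h3, h4⟩
            · omega
            · exact ⟨(l, l'), ⟨⟨h2, by rw [h3, hq']⟩, h4⟩, h1.symm⟩
          have h6 := Set.ncard_le_ncard h5 (Set.toFinite _)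
          have h7 := Set.ncard_image_le (f := fun q : I × Option I => (some q.1, q.2.map some))
            (s := {q | BadP p M y c q ∧ wp p c q = W + 1} \ {(i, o)}) (Set.toFinite _)
          have h8 := Set.ncard_sdiff_singleton_lt_of_mem
            (s := {q | BadP p M y c q ∧ wp p c q = W + 1}) (a := (i, o)) ⟨hb, hwt⟩
            (Set.toFinite _)
          omega
      · refine ihW _ M y h c μ Γ hPS hL hF ?_ le_rfl
        intro q hq
        have h1 := hW q hq
        rcases h1.lt_or_eq with h2 | h2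
        · omega
        · exact absurd ⟨q, hq, h2⟩ hex

end main

theorem main (hcp : WD_cp.{u}) (hpbl : WD_pbl.{u}) (htbl : WD_tbl.{u}) : WD_ppr.{u} := by
  classical
  intro p _ k N _ _ _ _ _ T I G _ _ M F Q y h c μ g Γ hPS hL hF
  refine aux hcp hpbl htbl F Q g (Finset.univ.sup (wp p c)) _ M y h c μ Γ hPS hL hF ?_ le_rfl
  intro q _
  exact Finset.le_sup (Finset.mem_univ q)

end Pool.Agent.W216.WD.Ppr
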