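import Pool.Agent.W558.WD.Stms
import Pool.Agent.W418.S.Rank
import Pool.Agent.W418.S.Par

/-! WILD-TYBT (owner helper558): the boundary at points. -/

set_option autoImplicit false
set_option linter.unusedVariables false
set_option linter.unusedSectionVars false

universe u

open Polynomial

namespace Pool.Agent.W216.WD.Tybt

open Pool.Agent.W558

section uo

variable {k E : Type u} [Field k] [Field E] [Algebra k E] {O : Subalgebra k E}

lemma mem_uo_self' (O : Subalgebra k E) (x : E) : x ∈ uo O x :=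
  ⟨1, O.one_mem, one_ne_zero, by rw [inv_one]; exact O.one_mem, by rw [one_mul]⟩

lemma uo_mul {w x : E} (hw : w ∈ O) (hw0 : w ≠ 0) (hwi : w⁻¹ ∈ O) : uo O (w * x) = uo O x := by
  ext z
  constructor
  · rintro ⟨v, hv, hv0, hvi, rfl⟩
    exact ⟨v * w, O.mul_mem hv hw, mul_ne_zero hv0 hw0, by rw [mul_inv]; exact O.mul_mem hvi hwi,
      by ring⟩
  · rintro ⟨v, hv, hv0, hvi, rfl⟩
    refine ⟨v * w⁻¹, O.mul_mem hv hwi, mul_ne_zero hv0 (inv_ne_zero hw0), ?_, ?_⟩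
    · rw [mul_inv, inv_inv]; exact O.mul_mem hvi hw
    · field_simp

lemma uo_eq {x y : E} (h : y ∈ uo O x) : uo O y = uo O x := by
  obtain ⟨w, hw, hw0, hwi, rfl⟩ := h
  exact uo_mul hw hw0 hwi

lemma NU_mul_unit {w x : E} (hw : w ∈ O) (hw0 : w ≠ 0) (hwi : w⁻¹ ∈ O) :
    NU O (w * x) ↔ NU O x := by
  constructor
  · intro h
    have := h.mul_left hwi
    rwa [inv_mul_cancel_left₀ hw0] at this
  · intro h
    exact h.mul_left hw

variable {T I : Type} (M : LM (⊥ : Subalgebra k E) ⊤ T I)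

lemma bdy_chart {t : T} (h : M.A t ≤ O) : bdy M O =
    {z | ∃ i, NU O (M.x t i) ∧ z ∈ uo O (M.x t i)} := by
  ext z
  constructor
  · rintro ⟨t', i, h', h1, h2⟩
    refine ⟨i, (M.nu_iff h h' i).2 h1, ?_⟩
    have h3 : M.x t' i ∈ uo O (M.x t i) := by
      refine ⟨M.x t' i / M.x t i, M.ratio h h' i, div_ne_zero (M.x0 _ _) (M.x0 _ _), ?_, ?_⟩
      · rw [inv_div]; exact M.ratio h' h i
      · have := M.x0 t i
        field_simp
    rw [← uo_eq h3]
    exact h2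
  · rintro ⟨i, h1, h2⟩
    exact ⟨t, i, h, h1, h2⟩

end uo

theorem bt : WD_bt.{u} := by
  intro k E _ _ _ T T' I M O M' π hB ⟨t0, ht0⟩ t' O' hO'
  have hle0 : M.A t0 ≤ O := ht0.le
  rcases hB.pt t' O' hO' with ⟨h1, h2, h3⟩ | ⟨h1, h2⟩
  · left
    refine ⟨h1, h3, ?_⟩
    have he : M'.x t' none ∈ O' := hO'.le (M'.xA t' none)
    obtain ⟨he0, hei⟩ := (not_NU_iff he).1 h1
    have key : ∀ i, ∃ w ∈ O', w ≠ 0 ∧ w⁻¹ ∈ O' ∧ M.x (π t') i = w * M'.x t' (some i) := by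
      intro i
      by_cases hi : NU O (M.x t0 i)
      · have h4 := hB.thr i ⟨t0, ht0, hi⟩ t'
        exact ⟨M'.x t' none, he, he0, hei, by rw [← h4, mul_comm]⟩
      · have h4 := hB.nthr i ⟨t0, ht0, hi⟩ t'
        exact ⟨1, O'.one_mem, one_ne_zero, by rw [inv_one]; exact O'.one_mem, by rw [h4, one_mul]⟩
    rw [bdy_chart M' hO'.le, bdy_chart M h2.le]
    ext z
    constructor
    · rintro ⟨_ | i, h4, h5⟩
      · exact absurd h4 h1
      · obtain ⟨w, hw, hw0, hwi, h6⟩ := key i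
        refine ⟨i, ?_, ?_⟩
        · rw [h6, NU_mul_unit hw hw0 hwi]; exact h4
        · rw [h6, uo_mul hw hw0 hwi]; exact h5
    · rintro ⟨i, h4, h5⟩
      obtain ⟨w, hw, hw0, hwi, h6⟩ := key i
      rw [h6, NU_mul_unit hw hw0 hwi] at h4
      rw [h6, uo_mul hw hw0 hwi] at h5
      exact ⟨some i, h4, h5⟩
  · right
    refine ⟨h2, ?_⟩
    have he0 : M'.x t' none ≠ 0 := M'.x0 _ _
    have hthr : ∀ i, NU O (M.x (π t') i) →
        M.x (π t') i / M'.x t' none = M'.x t' (some i) := by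
      intro i hi
      have h4 := hB.thr i ⟨π t', h1, hi⟩ t'
      rw [← h4]
      field_simp
    rw [bdy_chart M' hO'.le, bdy_chart M h1.le]
    ext z
    constructor
    · rintro ⟨_ | i, h4, h5⟩
      · exact Or.inl h5
      · right
        by_cases hi : NU O (M.x (π t') i)
        · refine ⟨M.x (π t') i, ⟨i, hi, mem_uo_self' _ _⟩, ?_, ?_⟩
          · rw [hthr i hi]; exact h4
          · rw [hthr i hi]; exact h5
        · exfalso
          have h6 := hB.nthr i ⟨π t', h1, hi⟩ t'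
          rw [h6] at h4
          obtain ⟨h7, h8⟩ := (not_NU_iff (h1.le (M.xA _ _))).1 hi
          exact not_NU_of_inv h7 (h2.le h8) h4
    · rintro (h4 | ⟨w, ⟨i, hi, v, hv, hv0, hvi, rfl⟩, h5, h6⟩)
      · exact ⟨none, h2.nu _ h2.eO, h4⟩
      · have e1 : v * M.x (π t') i / M'.x t' none = v * M'.x t' (some i) := by
          rw [mul_div_assoc, hthr i hi]
        rw [e1, NU_mul_unit (h2.le hv) hv0 (h2.le hvi)] at h5
        rw [e1, uo_mul (h2.le hv) hv0 (h2.le hvi)] at h6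
        exact ⟨some i, h5, h6⟩

section ty

variable {k E : Type u} [Field k] [Field E] [Algebra k E] {A O : Subalgebra k E}

/-- The value of a tangent vector on a combination. -/
lemma TV_val (h : IsPt A O) {κ : Type u} [Field κ] [Algebra k κ] {φ : A →ₐ[k] κ}
    (hφ : ∀ a : A, φ a = 0 ↔ NU O a) (D : TV φ) {x u v α β : E} (hx : x ∈ A) (hu : u ∈ A)
    (hv : v ∈ A) (hNu : NU O u) (hNv : NU O v) (hα : α ∈ O) (hβ : β ∈ O)
    (he : x = α * u + β * v) (h1 : NU O α ∨ D.D ⟨u, hu⟩ = 0) (h2 : NU O β ∨ D.D ⟨v, hv⟩ = 0) :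
    D.D ⟨x, hx⟩ = 0 := by
  obtain ⟨a1, ha1, b1, hb1, hb10, hb1i, e1⟩ := h.frac α hα
  obtain ⟨a2, ha2, b2, hb2, hb20, hb2i, e2⟩ := h.frac β hβ
  have hNx : NU O x := by
    rw [he]
    exact h.loc _ _ (hNu.mul_left hα) (hNv.mul_left hβ)
  have hφb1 : φ ⟨b1, hb1⟩ ≠ 0 := fun h3 => not_NU_of_inv hb10 hb1i ((hφ _).1 h3)
  have hφb2 : φ ⟨b2, hb2⟩ ≠ 0 := fun h3 => not_NU_of_inv hb20 hb2i ((hφ _).1 h3)
  have hφx : φ ⟨x, hx⟩ = 0 := (hφ _).2 hNx
  have hφu : φ ⟨u, hu⟩ = 0 := (hφ _).2 hNu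
  have hφv : φ ⟨v, hv⟩ = 0 := (hφ _).2 hNv
  have h3 : (⟨b1, hb1⟩ * ⟨b2, hb2⟩ : A) * ⟨x, hx⟩ =
      (⟨a1, ha1⟩ * ⟨b2, hb2⟩ : A) * ⟨u, hu⟩ + (⟨a2, ha2⟩ * ⟨b1, hb1⟩ : A) * ⟨v, hv⟩ := by
    apply Subtype.ext
    push_cast
    change b1 * b2 * x = a1 * b2 * u + a2 * b1 * v
    rw [he, e1, e2]
    field_simp
  have h4 := congrArg D.D h3
  rw [map_add, D.leib (⟨b1, hb1⟩ * ⟨b2, hb2⟩), D.leib (⟨a1, ha1⟩ * ⟨b2, hb2⟩),
    D.leib (⟨a2, ha2⟩ * ⟨b1, hb1⟩), hφx, hφu, hφv, zero_mul, zero_mul, zero_mul, add_zero,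
    add_zero, add_zero] at h4
  have h5 : φ (⟨a1, ha1⟩ * ⟨b2, hb2⟩ : A) * D.D ⟨u, hu⟩ = 0 := by
    rcases h1 with h1 | h1
    · have h6 : NU O a1 := by
        have := h1.mul_right (h.le hb1)
        rwa [e1, inv_mul_cancel_right₀ hb10] at this
      rw [map_mul, (hφ ⟨a1, ha1⟩).2 h6, zero_mul, zero_mul]
    · rw [h1, mul_zero]
  have h6 : φ (⟨a2, ha2⟩ * ⟨b1, hb1⟩ : A) * D.D ⟨v, hv⟩ = 0 := by
    rcases h2 with h2 | h2
    · have h6 : NU O a2 := by
        have := h2.mul_right (h.le hb2)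
        rwa [e2, inv_mul_cancel_right₀ hb20] at this
      rw [map_mul, (hφ ⟨a2, ha2⟩).2 h6, zero_mul, zero_mul]
    · rw [h2, mul_zero]
  rw [h5, h6, add_zero, map_mul] at h4
  exact (mul_eq_zero.1 h4).resolve_left (mul_ne_zero hφb1 hφb2)

/-- Exchange of a parameter. -/
lemma par_exchange (h : IsPt A O) {κ : Type u} [Field κ] [Algebra k κ] {φ : A →ₐ[k] κ}
    (hφ : ∀ a : A, φ a = 0 ↔ NU O a) {u v : E} (hpar : Par O u v) (hu : u ∈ A) (hv : v ∈ A)
    {x : E} (hx : x ∈ A) (hx0 : x ≠ 0) (hNx : NU O x) (D : TV φ) (hD : D.D ⟨x, hx⟩ ≠ 0) :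
    (D.D ⟨u, hu⟩ ≠ 0 ∧ Par O x v) ∨ (D.D ⟨v, hv⟩ ≠ 0 ∧ Par O x u) := by
  obtain ⟨α, hα, β, hβ, he⟩ := hpar.gen x hNx
  by_cases h1 : NU O α ∨ D.D ⟨u, hu⟩ = 0
  · by_cases h2 : NU O β ∨ D.D ⟨v, hv⟩ = 0
    · exact absurd (TV_val h hφ D hx hu hv hpar.pu hpar.pv hα hβ he h1 h2) hD
    · right
      rw [not_or, not_NU_iff hβ] at h2
      refine ⟨h2.2, ?_⟩
      have h3 := hpar.symm.change h.loc hβ h2.1.1 h2.1.2 hα (by rw [add_comm, ← he]; exact hx0)
      rwa [add_comm, ← he] at h3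
  · left
    rw [not_or, not_NU_iff hα] at h1
    refine ⟨h1.2, ?_⟩
    have h3 := hpar.change h.loc hα h1.1.1 h1.1.2 hβ (by rw [← he]; exact hx0)
    rwa [← he] at h3

end ty

theorem ty : WD_ty.{u} := by
  intro k E _ _ _ _ htr s t O hO
  have hA := s.sf t
  have hl := isLocalRing_of_loc hO.loc
  let L := IsLocalRing.ResidueField O
  let φ : s.M.A t →ₐ[k] L := (IsScalarTower.toAlgHom k O L).comp (Subalgebra.inclusion hO.le)
  have hφ : ∀ a : s.M.A t, φ a = 0 ↔ NU O a := fun a => by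
    change IsLocalRing.residue O ⟨a, hO.le a.2⟩ = 0 ↔ _
    rw [residue_eq_zero_NU]
  obtain ⟨u, v, g, hu, hv, hg, hg0, hgi, hpar, -, -⟩ :=
    Pool.Agent.W418.SP.main Pool.Agent.W418.SR.main k E htr (s.M.A t) O hA hO
  obtain ⟨a, b, D1, D2, -, -, -, -, hrank⟩ :=
    Pool.Agent.W418.SR.main k E htr (s.M.A t) hA L φ
  rw [bdy_chart s.M hO.le]
  -- the dual tangent vectors
  have hdual : ∀ i, NU O (s.M.x t i) → ∃ D : TV φ, D.D ⟨s.M.x t i, s.M.xA t i⟩ = 1 ∧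
      ∀ j, j ≠ i → NU O (s.M.x t j) → D.D ⟨s.M.x t j, s.M.xA t j⟩ = 0 := by
    intro i hi
    obtain ⟨D, hD, hD'⟩ := s.M.snc t L φ i (s.M.xA t i) ((hφ _).2 hi)
    exact ⟨D, hD, fun j hj hj' => hD' j (s.M.xA t j) hj ((hφ _).2 hj')⟩
  by_cases hex : ∃ i, NU O (s.M.x t i)
  · obtain ⟨i, hi⟩ := hex
    obtain ⟨Di, hDi, hDi'⟩ := hdual i hi
    -- a parameter system with x_i
    obtain ⟨w, hw, hparw⟩ : ∃ w, w ∈ s.M.A t ∧ Par O (s.M.x t i) w := by
      rcases par_exchange hO hφ hpar hu hv (s.M.xA t i) (s.M.x0 t i) hi Di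
        (by rw [hDi]; exact one_ne_zero) with ⟨-, h1⟩ | ⟨-, h1⟩
      · exact ⟨v, hv, h1⟩
      · exact ⟨u, hu, h1⟩
    by_cases hex2 : ∃ j, j ≠ i ∧ NU O (s.M.x t j)
    · obtain ⟨j, hji, hj⟩ := hex2
      obtain ⟨Dj, hDj, hDj'⟩ := hdual j hj
      have hparj : Par O (s.M.x t i) (s.M.x t j) := by
        rcases par_exchange hO hφ hparw (s.M.xA t i) hw (s.M.xA t j) (s.M.x0 t j) hj Dj
          (by rw [hDj]; exact one_ne_zero) with ⟨h1, -⟩ | ⟨-, h1⟩
        · exact absurd (hDj' i hji.symm hi) h1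
        · exact h1.symm
      refine ⟨_, _, hparj, Or.inr (Or.inr ?_)⟩
      ext z
      constructor
      · rintro ⟨l, hl1, hl2⟩
        by_cases hli : l = i
        · subst hli; exact Or.inl hl2
        by_cases hlj : l = j
        · subst hlj; exact Or.inr hl2
        exfalso
        obtain ⟨Dl, hDl, hDl'⟩ := hdual l hl1
        -- linear dependence
        have hdep : ∃ c : Fin 3 → L, c ≠ 0 ∧ c 0 * Di.D a + c 1 * Dj.D a + c 2 * Dl.D a = 0 ∧
            c 0 * Di.D b + c 1 * Dj.D b + c 2 * Dl.D b = 0 := by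
          let F : (Fin 3 → L) →ₗ[L] (Fin 2 → L) := Matrix.mulVecLin
            !![Di.D a, Dj.D a, Dl.D a; Di.D b, Dj.D b, Dl.D b]
          have h1 : LinearMap.ker F ≠ ⊥ := LinearMap.ker_ne_bot_of_finrank_lt (by simp)
          obtain ⟨c, hc, hc0⟩ := (Submodule.ne_bot_iff _).1 h1
          rw [LinearMap.mem_ker] at hc
          refine ⟨c, hc0, ?_, ?_⟩
          · have h2 := congrFun hc 0
            simp only [F, Matrix.mulVecLin_apply, Matrix.mulVec, dotProduct, Fin.sum_univ_three,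
              Pi.zero_apply, Matrix.of_apply, Matrix.cons_val] at h2
            linear_combination h2
          · have h2 := congrFun hc 1
            simp only [F, Matrix.mulVecLin_apply, Matrix.mulVec, dotProduct, Fin.sum_univ_three,
              Pi.zero_apply, Matrix.of_apply, Matrix.cons_val] at h2
            linear_combination h2
        obtain ⟨c, hc, h1, h2⟩ := hdep
        have h3 := hrank (TV.comb 1 1 (TV.comb (c 0) (c 1) Di Dj) (TV.comb (c 2) 0 Dl Dl))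
          (by rw [TV.comb_D, TV.comb_D, TV.comb_D]; linear_combination h1)
          (by rw [TV.comb_D, TV.comb_D, TV.comb_D]; linear_combination h2)
        apply hc
        funext r
        have e1 := h3 ⟨s.M.x t i, s.M.xA t i⟩
        have e2 := h3 ⟨s.M.x t j, s.M.xA t j⟩
        have e3 := h3 ⟨s.M.x t l, s.M.xA t l⟩
        rw [TV.comb_D, TV.comb_D, TV.comb_D] at e1 e2 e3
        rw [hDi, hDj' i hji.symm hi, hDl' i (Ne.symm hli) hi] at e1
        rw [hDi' j hji hj, hDj, hDl' j (Ne.symm hlj) hj] at e2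
        rw [hDi' l hli hl1, hDj' l hlj hl1, hDl] at e3
        fin_cases r
        · simpa using e1
        · simpa using e2
        · simpa using e3
      · rintro (h1 | h1)
        · exact ⟨i, hi, h1⟩
        · exact ⟨j, hj, h1⟩
    · push Not at hex2
      refine ⟨_, _, hparw, Or.inr (Or.inl ?_)⟩
      ext z
      constructor
      · rintro ⟨l, hl1, hl2⟩
        by_cases hli : l = i
        · subst hli; exact hl2
        · exact absurd hl1 (hex2 l hli)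
      · intro h1
        exact ⟨i, hi, h1⟩
  · refine ⟨u, v, hpar, Or.inl ?_⟩
    ext z
    constructor
    · rintro ⟨i, hi, -⟩
      exact absurd ⟨i, hi⟩ hex
    · intro h
      exact absurd h (Set.notMem_empty z)

end Pool.Agent.W216.WD.Tybt
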